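import Mathlib.Algebra.BigOperators.Group.Finset.Basic
import Mathlib.Algebra.Order.BigOperators.Group.Finset
import Mathlib.Data.Fintype.BigOperators
import Mathlib.Data.Real.Basic
import Mathlib.Dynamics.PeriodicPts.Defs
import Mathlib.GroupTheory.Perm.Basic
import Mathlib.GroupTheory.OrderOfElement
import Mathlib.Tactic

/-!
# Exchange between two optimal perfect matchings

A perfect matching of the complete graph on a finite set `V` is a fixed-point-free involution.
If `τ`, `τ'` are perfect matchings of least cost then for edges `{p, τ p}` and `{r, τ' r}` one of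
the two ways of re-pairing the four points costs at least as much as the two edges.
-/

set_option autoImplicit false

namespace Pool.Agent.Q197.Beur

open Finset

/-- A perfect matching of the complete graph on `V`: an involution without fixed points. -/
def IsPM {V : Type*} (τ : V → V) : Prop := (∀ v, τ (τ v) = v) ∧ ∀ v, τ v ≠ v

/-- Twice the cost of a perfect matching. -/
def cost {V : Type*} [Fintype V] (c : V → V → ℝ) (τ : V → V) : ℝ := ∑ v, c v (τ v)

variable {V : Type*} [Fintype V] [DecidableEq V]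

/-- The correction term. -/
private def corr (c : V → V → ℝ) (p q r s v : V) : ℝ :=
  (if v = p then c p r - c p q else 0) + (if v = q then c q s - c q p else 0) +
    (if v = r then c r p - c r s else 0) + (if v = s then c s q - c s r else 0)

private lemma sum_corr (c : V → V → ℝ) (hs : ∀ v w, c v w = c w v) (p q r s : V) :
    ∑ v, corr c p q r s v = 2 * (c p r + c q s - c p q - c r s) := by
  unfold corr
  rw [sum_add_distrib, sum_add_distrib, sum_add_distrib]
  simp only [sum_ite_eq', mem_univ, if_true]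
  rw [hs q p, hs r p, hs s q, hs s r]
  ring

/-- If the costs of two new matchings differ from those of the old ones by the correction. -/
private lemma finish (c : V → V → ℝ) (hs : ∀ v w, c v w = c w v) {τ τ' N N' : V → V} {m : ℝ}
    (hm : ∀ ρ, IsPM ρ → m ≤ cost c ρ) (hτ : cost c τ = m) (hτ' : cost c τ' = m)
    (hN : IsPM N) (hN' : IsPM N') (p q r s : V)
    (h : ∀ v, c v (N v) + c v (N' v) = c v (τ v) + c v (τ' v) + corr c p q r s v) :
    c p q + c r s ≤ c p r + c q s := by
  have h1 : cost c N + cost c N' = cost c τ + cost c τ' + 2 * (c p r + c q s - c p q - c r s) := by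
    unfold cost
    rw [← sum_corr c hs, ← sum_add_distrib, ← sum_add_distrib, ← sum_add_distrib]
    exact sum_congr rfl fun v _ => h v
  have h2 := hm N hN
  have h3 := hm N' hN'
  linarith

/-- The first exchange: the edges `{p, q}` of `τ` and `{r, s}` of `τ'`, and a set `Z` containing
`q`, `r` but not `p`, `s` which is otherwise closed under both matchings. -/
lemma swapA (c : V → V → ℝ) (hs : ∀ v w, c v w = c w v) {τ τ' : V → V} {m : ℝ}
    (h1 : IsPM τ) (h2 : IsPM τ')
    (hm : ∀ ρ, IsPM ρ → m ≤ cost c ρ) (hτ : cost c τ = m) (hτ' : cost c τ' = m)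
    (Z : V → Prop) (p q r s : V) (hpq : τ p = q) (hrs : τ' r = s)
    (hp : ¬ Z p) (hq : Z q) (hr : Z r) (hs' : ¬ Z s)
    (hZ : ∀ v, Z v → v ≠ q → Z (τ v)) (hZ' : ∀ v, Z v → v ≠ r → Z (τ' v)) :
    c p q + c r s ≤ c p r + c q s := by
  classical
  have hqp : τ q = p := by rw [← hpq, h1.1]
  have hsr : τ' s = r := by rw [← hrs, h2.1]
  have hpr : p ≠ r := fun h => hp (h ▸ hr)
  have hqs : q ≠ s := fun h => hs' (h ▸ hq)
  have hpq' : p ≠ q := fun h => hp (h ▸ hq)
  have hrs' : r ≠ s := fun h => hs' (h ▸ hr)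
  -- closure outside of `Z`
  have oZ : ∀ v, ¬ Z v → v ≠ p → ¬ Z (τ v) := by
    intro v hv hvp hc
    by_cases h : τ v = q
    · exact hvp (by rw [← h1.1 v, h, hqp])
    · have := hZ _ hc h
      rw [h1.1] at this
      exact hv this
  have oZ' : ∀ v, ¬ Z v → v ≠ s → ¬ Z (τ' v) := by
    intro v hv hvs hc
    by_cases h : τ' v = r
    · exact hvs (by rw [← h2.1 v, h, hrs])
    · have := hZ' _ hc h
      rw [h2.1] at this
      exact hv this
  let N : V → V := fun v => if v = p then r else if v = r then p else if Z v then τ' v else τ v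
  let N' : V → V := fun v => if v = q then s else if v = s then q else if Z v then τ v else τ' v
  have hN : IsPM N := by
    constructor
    · intro v
      by_cases e1 : v = p
      · simp [N, e1, hpr.symm]
      by_cases e2 : v = r
      · simp [N, e2, hpr.symm]
      by_cases e3 : Z v
      · have a1 : Z (τ' v) := hZ' v e3 e2
        have a2 : τ' v ≠ p := fun h => hp (h ▸ a1)
        have a3 : τ' v ≠ r := fun h => hs' (by
          have : v = s := by rw [← h2.1 v, h, hrs]
          exact this ▸ e3)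
        simp [N, e1, e2, e3, a1, a2, a3, h2.1]
      · have a1 : ¬ Z (τ v) := oZ v e3 e1
        have a2 : τ v ≠ r := fun h => a1 (h ▸ hr)
        have a3 : τ v ≠ p := fun h => e3 (by
          have : v = q := by rw [← h1.1 v, h, hpq]
          exact this ▸ hq)
        simp [N, e1, e2, e3, a1, a2, a3, h1.1]
    · intro v
      by_cases e1 : v = p
      · simp [N, e1, hpr.symm]
      by_cases e2 : v = r
      · subst e2
        simp [N, hpr.symm, hpr]
      by_cases e3 : Z v
      · simp [N, e1, e2, e3, h2.2]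
      · simp [N, e1, e2, e3, h1.2]
  have hN' : IsPM N' := by
    constructor
    · intro v
      by_cases e1 : v = q
      · simp [N', e1, hqs.symm]
      by_cases e2 : v = s
      · simp [N', e2, hqs.symm]
      by_cases e3 : Z v
      · have a1 : Z (τ v) := hZ v e3 e1
        have a2 : τ v ≠ s := fun h => hs' (h ▸ a1)
        have a3 : τ v ≠ q := fun h => hp (by
          have : v = p := by rw [← h1.1 v, h, hqp]
          exact this ▸ e3)
        simp [N', e1, e2, e3, a1, a2, a3, h1.1]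
      · have a1 : ¬ Z (τ' v) := oZ' v e3 e2
        have a2 : τ' v ≠ q := fun h => a1 (h ▸ hq)
        have a3 : τ' v ≠ s := fun h => e3 (by
          have : v = r := by rw [← h2.1 v, h, hsr]
          exact this ▸ hr)
        simp [N', e1, e2, e3, a1, a2, a3, h2.1]
    · intro v
      by_cases e1 : v = q
      · simp [N', e1, hqs.symm]
      by_cases e2 : v = s
      · subst e2
        simp [N', hqs.symm, hqs]
      by_cases e3 : Z v
      · simp [N', e1, e2, e3, h1.2]
      · simp [N', e1, e2, e3, h2.2]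
  refine finish c hs hm hτ hτ' hN hN' p q r s fun v => ?_
  by_cases e1 : v = p
  · subst e1
    by_cases e4 : v = s
    · subst e4
      simp [N, N', corr, hpr, hpq', hpq, hsr]
      ring
    · simp [N, N', corr, hpr, hpq', hpq, hp, e4]
      ring
  by_cases e2 : v = r
  · subst e2
    by_cases e4 : v = q
    · subst e4
      simp [N, N', corr, e1, hrs', hrs, hqp]
    · simp [N, N', corr, e1, hrs', hrs, hr, e4]
      ring
  by_cases e3 : v = q
  · subst e3
    simp [N, N', corr, e1, e2, hqs, hqp, hq]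
    ring
  by_cases e4 : v = s
  · subst e4
    simp [N, N', corr, e1, e2, e3, hsr, hs']
  by_cases e5 : Z v
  · simp [N, N', corr, e1, e2, e3, e4, e5]
    ring
  · simp [N, N', corr, e1, e2, e3, e4, e5]

/-- The second exchange: `Z` is closed under both matchings, contains `p` but not `r`. -/
lemma swapB (c : V → V → ℝ) (hs : ∀ v w, c v w = c w v) {τ τ' : V → V} {m : ℝ}
    (h1 : IsPM τ) (h2 : IsPM τ')
    (hm : ∀ ρ, IsPM ρ → m ≤ cost c ρ) (hτ : cost c τ = m) (hτ' : cost c τ' = m)
    (Z : V → Prop) (p q r s : V) (hpq : τ p = q) (hrs : τ' r = s)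
    (hp : Z p) (hr : ¬ Z r)
    (hZ : ∀ v, Z v → Z (τ v)) (hZ' : ∀ v, Z v → Z (τ' v)) :
    c p q + c r s ≤ c p r + c q s := by
  classical
  have hqp : τ q = p := by rw [← hpq, h1.1]
  have hsr : τ' s = r := by rw [← hrs, h2.1]
  have hq : Z q := hpq ▸ hZ p hp
  have hs' : ¬ Z s := fun h => hr (hsr ▸ hZ' s h)
  have hpr : p ≠ r := fun h => hr (h ▸ hp)
  have hqs : q ≠ s := fun h => hs' (h ▸ hq)
  have hpq' : p ≠ q := fun h => h1.2 p (by rw [hpq, ← h])
  have hrs' : r ≠ s := fun h => h2.2 r (by rw [hrs, ← h])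
  have hps : p ≠ s := fun h => hs' (h ▸ hp)
  have hqr : q ≠ r := fun h => hr (h ▸ hq)
  have oZ : ∀ v, ¬ Z v → ¬ Z (τ v) := fun v hv hc => hv (h1.1 v ▸ hZ _ hc)
  have oZ' : ∀ v, ¬ Z v → ¬ Z (τ' v) := fun v hv hc => hv (h2.1 v ▸ hZ' _ hc)
  let N : V → V := fun v => if v = p then r else if v = r then p else if v = q then s else
    if v = s then q else if Z v then τ v else τ' v
  let N' : V → V := fun v => if Z v then τ' v else τ v
  have hN : IsPM N := by
    constructor
    · intro v
      by_cases e1 : v = p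
      · simp [N, e1, hpr.symm]
      by_cases e2 : v = r
      · simp [N, e2, hpr.symm]
      by_cases e3 : v = q
      · simp [N, e3, hpq'.symm, hqr, hrs'.symm, hps.symm, hqs.symm]
      by_cases e4 : v = s
      · simp [N, e4, hpq'.symm, hqr, hrs'.symm, hps.symm, hqs.symm]
      by_cases e5 : Z v
      · have a1 : Z (τ v) := hZ v e5
        have a2 : τ v ≠ p := fun h => e3 (by rw [← h1.1 v, h, hpq])
        have a3 : τ v ≠ q := fun h => e1 (by rw [← h1.1 v, h, hqp])
        have a4 : τ v ≠ r := fun h => hr (h ▸ a1)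
        have a5 : τ v ≠ s := fun h => hs' (h ▸ a1)
        simp [N, e1, e2, e3, e4, e5, a1, a2, a3, a4, a5, h1.1]
      · have a1 : ¬ Z (τ' v) := oZ' v e5
        have a2 : τ' v ≠ r := fun h => e4 (by rw [← h2.1 v, h, hrs])
        have a3 : τ' v ≠ s := fun h => e2 (by rw [← h2.1 v, h, hsr])
        have a4 : τ' v ≠ p := fun h => a1 (h ▸ hp)
        have a5 : τ' v ≠ q := fun h => a1 (h ▸ hq)
        simp [N, e1, e2, e3, e4, e5, a1, a2, a3, a4, a5, h2.1]
    · intro v
      by_cases e1 : v = p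
      · simp [N, e1, hpr.symm]
      by_cases e2 : v = r
      · subst e2
        simp [N, hpr.symm, hpr]
      by_cases e3 : v = q
      · simp [N, e3, hpq'.symm, hqr, hqs.symm]
      by_cases e4 : v = s
      · simp [N, e4, hps.symm, hrs'.symm, hqs.symm, hqs]
      by_cases e5 : Z v
      · simp [N, e1, e2, e3, e4, e5, h1.2]
      · simp [N, e1, e2, e3, e4, e5, h2.2]
  have hN' : IsPM N' := by
    constructor
    · intro v
      by_cases e5 : Z v
      · simp [N', e5, hZ' v e5, h2.1]
      · simp [N', e5, oZ v e5, h1.1]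
    · intro v
      by_cases e5 : Z v
      · simp [N', e5, h2.2]
      · simp [N', e5, h1.2]
  refine finish c hs hm hτ hτ' hN hN' p q r s fun v => ?_
  by_cases e1 : v = p
  · subst e1
    simp [N, N', corr, hpr, hpq', hps, hpq, hp]
    ring
  by_cases e2 : v = r
  · subst e2
    simp [N, N', corr, e1, hqr.symm, hrs', hrs, hr]
    ring
  by_cases e3 : v = q
  · subst e3
    simp [N, N', corr, e1, e2, hqs, hqp, hq]
    ring
  by_cases e4 : v = s
  · subst e4
    simp [N, N', corr, e1, e2, e3, hsr, hs']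
    ring
  by_cases e5 : Z v
  · simp [N, N', corr, e1, e2, e3, e4, e5]
  · simp [N, N', corr, e1, e2, e3, e4, e5]
    ring

/-- The alternating walk starting with the edge `{p, τ p}`. -/
def aw (τ τ' : V → V) (p : V) (k : ℕ) : V := (fun v => τ' (τ v))^[k] p

omit [Fintype V] [DecidableEq V] in
lemma aw_succ (τ τ' : V → V) (p : V) (k : ℕ) :
    aw τ τ' p (k + 1) = τ' (τ (aw τ τ' p k)) := by
  unfold aw
  rw [Function.iterate_succ_apply']

omit [Fintype V] [DecidableEq V] in
lemma aw_add (τ τ' : V → V) (p : V) (j k : ℕ) :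
    aw τ τ' p (j + k) = (fun v => τ' (τ v))^[j] (aw τ τ' p k) := by
  unfold aw
  rw [Function.iterate_add_apply]

omit [Fintype V] [DecidableEq V] in
/-- The two sides of an alternating walk are disjoint. -/
lemma aw_ne {τ τ' : V → V} (h1 : IsPM τ) (h2 : IsPM τ') (p : V) :
    ∀ i j : ℕ, aw τ τ' p i ≠ τ (aw τ τ' p j) := by
  have key : ∀ d i j : ℕ, i + j = d → i ≤ j → aw τ τ' p i ≠ τ (aw τ τ' p j) := by
    have aux : ∀ e i j : ℕ, j = i + e → aw τ τ' p i ≠ τ (aw τ τ' p j) := by
      intro e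
      induction e using Nat.strong_induction_on with
      | _ e ih =>
        intro i j hj h
        match e, ih, hj with
        | 0, _, hj =>
          rw [hj, add_zero] at h
          exact h1.2 _ h.symm
        | 1, _, hj =>
          -- `a_i = τ a_{i+1}` so `a_{i+1} = τ a_i`, while `a_{i+1} = τ' τ a_i`
          rw [hj] at h
          have h3 : τ (aw τ τ' p i) = aw τ τ' p (i + 1) := by rw [h, h1.1]
          rw [aw_succ, ← h] at h
          have h4 := aw_succ τ τ' p i
          rw [← h3] at h4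
          exact h2.2 _ h4.symm
        | e + 2, ih, hj =>
          refine ih e (by omega) (i + 1) (i + 1 + e) rfl ?_
          have h5 : j = (i + 1 + e) + 1 := by omega
          rw [h5, aw_succ] at h
          rw [aw_succ, h, h1.1, h2.1]
    intro d i j _ hij
    exact aux (j - i) i j (by omega)
  intro i j
  rcases le_total i j with h | h
  · exact key _ i j rfl h
  · intro hc
    refine key _ j i rfl h ?_
    rw [hc, h1.1]

/-- The exchange in the case in which the walk from `p` arrives at `s`. -/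
private lemma exchange_walk (c : V → V → ℝ) (hs : ∀ v w, c v w = c w v) {τ τ' : V → V} {m : ℝ}
    (h1 : IsPM τ) (h2 : IsPM τ')
    (hm : ∀ ρ, IsPM ρ → m ≤ cost c ρ) (hτ : cost c τ = m) (hτ' : cost c τ' = m)
    (p r : V) (h : ∃ n : ℕ, 1 ≤ n ∧ aw τ τ' p n = τ' r) :
    c p (τ p) + c r (τ' r) ≤ c p r + c (τ p) (τ' r) := by
  classical
  by_cases hps : τ' r = p
  · -- degenerate case
    rw [hps, hs r p, hs (τ p) p]
    linarith
  set n := Nat.find h with hn
  obtain ⟨hn1, hn2⟩ := Nat.find_spec h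
  rw [← hn] at hn1 hn2
  have hmin : ∀ j, 1 ≤ j → j < n → aw τ τ' p j ≠ τ' r := by
    intro j hj1 hj2 hj3
    exact Nat.find_min h hj2 ⟨hj1, hj3⟩
  have hne := aw_ne h1 h2 p
  have h00 : aw τ τ' p 0 = p := rfl
  obtain ⟨k, hk⟩ : ∃ k, n = k + 1 := ⟨n - 1, by omega⟩
  have hbr : τ (aw τ τ' p k) = r := by
    have := hn2
    rw [hk, aw_succ] at this
    have h3 := congrArg τ' this
    rw [h2.1, h2.1] at h3
    exact h3
  -- distinctness
  have hd : ∀ i j, i < j → j ≤ n → aw τ τ' p i ≠ aw τ τ' p j := by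
    intro i j hij hjn hc
    have h3 : aw τ τ' p (n - j + i) = τ' r := by
      rw [aw_add, hc, ← aw_add, Nat.sub_add_cancel hjn, hn2]
    rcases Nat.eq_zero_or_pos (n - j + i) with h4 | h4
    · rw [h4] at h3
      exact hps h3.symm
    · exact hmin _ h4 (by omega) h3
  refine swapA c hs h1 h2 hm hτ hτ'
    (fun v => (∃ j, 1 ≤ j ∧ j < n ∧ v = aw τ τ' p j) ∨ ∃ j, j < n ∧ v = τ (aw τ τ' p j))
    p (τ p) r (τ' r) rfl rfl ?_ ?_ ?_ ?_ ?_ ?_
  · rintro (⟨j, hj1, hj2, hj3⟩ | ⟨j, hj1, hj2⟩)
    · exact hd 0 j (by omega) (by omega) hj3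
    · exact hne 0 j hj2
  · exact Or.inr ⟨0, by omega, rfl⟩
  · exact Or.inr ⟨k, by omega, hbr.symm⟩
  · rintro (⟨j, hj1, hj2, hj3⟩ | ⟨j, hj1, hj2⟩)
    · exact hmin j hj1 hj2 hj3.symm
    · exact hne n j (hn2.trans hj2)
  · rintro v (⟨j, hj1, hj2, rfl⟩ | ⟨j, hj1, rfl⟩) hv
    · exact Or.inr ⟨j, hj2, rfl⟩
    · rcases Nat.eq_zero_or_pos j with h3 | h3
      · subst h3
        exact absurd rfl hv
      · exact Or.inl ⟨j, h3, hj1, h1.1 _⟩
  · rintro v (⟨j, hj1, hj2, rfl⟩ | ⟨j, hj1, rfl⟩) hv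
    · obtain ⟨i, hi⟩ : ∃ i, j = i + 1 := ⟨j - 1, by omega⟩
      exact Or.inr ⟨i, by omega, by rw [hi, aw_succ, h2.1]⟩
    · refine Or.inl ⟨j + 1, by omega, ?_, (aw_succ τ τ' p j).symm⟩
      rcases Nat.lt_or_ge (j + 1) n with h3 | h3
      · exact h3
      · exfalso
        have : j = k := by omega
        subst this
        exact hv hbr

/-- **Exchange.** -/
theorem exchange (c : V → V → ℝ) (hs : ∀ v w, c v w = c w v) {τ τ' : V → V} {m : ℝ}
    (h1 : IsPM τ) (h2 : IsPM τ')
    (hm : ∀ ρ, IsPM ρ → m ≤ cost c ρ) (hτ : cost c τ = m) (hτ' : cost c τ' = m)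
    (p r : V) :
    c p (τ p) + c r (τ' r) ≤ c p r + c (τ p) (τ' r) ∨
      c p (τ p) + c r (τ' r) ≤ c p (τ' r) + c (τ p) r := by
  classical
  by_cases hA : ∃ n : ℕ, 1 ≤ n ∧ aw τ τ' p n = τ' r
  · exact Or.inl (exchange_walk c hs h1 h2 hm hτ hτ' p r hA)
  by_cases hB : ∃ n : ℕ, 1 ≤ n ∧ aw τ τ' p n = r
  · right
    have := exchange_walk c hs h1 h2 hm hτ hτ' p (τ' r) (by rw [h2.1]; exact hB)
    rw [h2.1, hs (τ' r) r] at this
    exact this
  left
  -- the walk is periodic
  have hper : ∃ n : ℕ, 1 ≤ n ∧ aw τ τ' p n = p := by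
    let π : Equiv.Perm V := (Equiv.mk τ τ h1.1 h1.1).trans (Equiv.mk τ' τ' h2.1 h2.1)
    refine ⟨orderOf π, orderOf_pos π, ?_⟩
    have h3 : ∀ n : ℕ, aw τ τ' p n = (π ^ n) p := by
      intro n
      change (⇑π)^[n] p = (π ^ n) p
      rw [Equiv.Perm.iterate_eq_pow]
    rw [h3, pow_orderOf_eq_one]
    rfl
  obtain ⟨n, hn1, hn2⟩ := hper
  obtain ⟨k, hk⟩ : ∃ k, n = k + 1 := ⟨n - 1, by omega⟩
  have hb : τ' p = τ (aw τ τ' p k) := by
    have h3 := hn2
    rw [hk, aw_succ] at h3
    rw [← congrArg τ' h3, h2.1]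
  refine swapB c hs h1 h2 hm hτ hτ'
    (fun v => (∃ j, v = aw τ τ' p j) ∨ ∃ j, v = τ (aw τ τ' p j))
    p (τ p) r (τ' r) rfl rfl (Or.inl ⟨0, rfl⟩) ?_ ?_ ?_
  · rintro (⟨j, hj⟩ | ⟨j, hj⟩)
    · rcases Nat.eq_zero_or_pos j with h3 | h3
      · subst h3
        exact hB ⟨n, hn1, by rw [hj, hn2]; rfl⟩
      · exact hB ⟨j, h3, hj.symm⟩
    · exact hA ⟨j + 1, by omega, by rw [aw_succ, hj]⟩
  · rintro v (⟨j, rfl⟩ | ⟨j, rfl⟩)
    · exact Or.inr ⟨j, rfl⟩
    · exact Or.inl ⟨j, h1.1 _⟩
  · rintro v (⟨j, rfl⟩ | ⟨j, rfl⟩)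
    · rcases Nat.eq_zero_or_pos j with h3 | h3
      · subst h3
        exact Or.inr ⟨k, hb⟩
      · obtain ⟨i, hi⟩ : ∃ i, j = i + 1 := ⟨j - 1, by omega⟩
        exact Or.inr ⟨i, by rw [hi, aw_succ, h2.1]⟩
    · exact Or.inl ⟨j + 1, (aw_succ τ τ' p j).symm⟩

end Pool.Agent.Q197.Beur
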