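import Pool.Agent.Q197.Beur.Signs
import Mathlib.Order.Filter.Ultrafilter.Basic
import Mathlib.Topology.Baire.Lemmas
import Mathlib.Topology.Baire.CompleteMetrizable
import Mathlib.Analysis.Normed.Lp.lpSpace
import Mathlib.Topology.Algebra.InfiniteSum.Real

/-!
# Beurling sets for Lipschitz interpolating families
-/

set_option autoImplicit false

namespace Pool.Agent.Q197.Beur

open Finset Filter Topology

universe u v

/-- The difference quotient. -/
noncomputable def dq {X : Type u} [MetricSpace X] (x y : X) (g : X → ℝ) : ℝ :=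
  (g x - g y) / dist x y

/-- `g` belongs to `Lip₀(X)` and its norm, the least Lipschitz constant, is at most `K`. -/
def LipBound {X : Type u} [MetricSpace X] (o : X) (K : ℝ) (g : X → ℝ) : Prop :=
  g o = 0 ∧ ∀ x y, |g x - g y| ≤ K * dist x y

/-- The map `g ↦ (dq (x i) (y i) g)` from `Lip₀(X)` to `ℓ_∞(I)` is onto. -/
def IsInterpolating {X : Type u} [MetricSpace X] (o : X) {I : Type v} (x y : I → X) : Prop :=
  ∀ α : I → ℝ, (∃ C : ℝ, ∀ i, |α i| ≤ C) →
    ∃ (K : ℝ) (g : X → ℝ), LipBound o K g ∧ ∀ i, dq (x i) (y i) g = α i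

/-- Every element of the unit ball of `ℓ_∞(I)` has a preimage of norm at most `K`. -/
def BallLift {X : Type u} [MetricSpace X] (o : X) {I : Type v} (x y : I → X) (K : ℝ) : Prop :=
  ∀ α : I → ℝ, (∀ i, |α i| ≤ 1) → ∃ g : X → ℝ, LipBound o K g ∧ ∀ i, dq (x i) (y i) g = α i

/-- The interpolation constant. -/
noncomputable def interpConst {X : Type u} [MetricSpace X] (o : X) {I : Type v} (x y : I → X) : ℝ :=
  sInf {K : ℝ | 1 ≤ K ∧ BallLift o x y K}

/-- Beurling set with constant `M`. -/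
structure IsBeurling {X : Type u} [MetricSpace X] (o : X) {I : Type v} [DecidableEq I]
    (x y : I → X) (M : ℝ) (f : I → X → ℝ) : Prop where
  lip : ∀ i, ∃ K : ℝ, LipBound o K (f i)
  biorth : ∀ i j, dq (x j) (y j) (f i) = if i = j then 1 else 0
  bound : ∀ z w : X, z ≠ w →
    Summable (fun i => |dq z w (f i)|) ∧ ∑' i, |dq z w (f i)| ≤ M

section

variable {X : Type u} [MetricSpace X] {o : X} {I : Type v} {x y : I → X}

lemma exists_ulim {ι : Type*} (U : Ultrafilter ι) (a : ι → ℝ) (C : ℝ) (h : ∀ s, |a s| ≤ C) :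
    ∃ l, |l| ≤ C ∧ Tendsto a U (𝓝 l) := by
  have h1 : IsCompact (Set.Icc (-C) C) := isCompact_Icc
  obtain ⟨l, hl, hle⟩ := h1.ultrafilter_le_nhds (U.map a) (by
    rw [le_principal_iff, Ultrafilter.mem_coe, Ultrafilter.mem_map]
    exact Filter.mem_of_superset univ_mem fun s _ => Set.mem_Icc.2 (abs_le.1 (h s)))
  exact ⟨l, abs_le.2 hl, hle⟩

/-- The finite case for metric spaces. -/
lemma finite_step [DecidableEq I] (hxy : ∀ i, x i ≠ y i) {K : ℝ}
    (hK : BallLift o x y K) (S : Finset I) (T : Finset X) :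
    ∃ φ : I → X → ℝ, (∀ i z, |φ i z| ≤ |K| * dist z o) ∧
      (∀ i ∈ S, ∀ j ∈ S, o ∈ T → x j ∈ T → y j ∈ T →
        φ i (x j) - φ i (y j) = if i = j then dist (x j) (y j) else 0) ∧
      (∀ i ∈ S, o ∈ T → φ i o = 0) ∧
      ∀ z ∈ T, ∀ w ∈ T, o ∈ T → ∑ i ∈ S, |φ i z - φ i w| ≤ K * dist z w := by
  classical
  by_cases ho : o ∈ T
  swap
  · exact ⟨fun _ _ => 0, fun i z => by rw [abs_zero]; positivity, fun i _ j _ h => absurd h ho,
      fun i _ h => absurd h ho, fun z _ w _ h => absurd h ho⟩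
  -- one function for every choice of signs
  have hg : ∀ α : (↥S → Bool), ∃ g : X → ℝ, LipBound o K g ∧
      ∀ i : ↥S, g (x i) - g (y i) = (if α i then 1 else -1) * dist (x i) (y i) := by
    intro α
    obtain ⟨g, hg1, hg2⟩ := hK (fun i => if h : i ∈ S then (if α ⟨i, h⟩ then 1 else -1) else 0) (by
      intro i
      split_ifs <;> simp)
    refine ⟨g, hg1, fun i => ?_⟩
    have h1 := hg2 i
    rw [dif_pos i.2] at h1
    unfold dq at h1
    have h2 : dist (x i) (y i) ≠ 0 := dist_ne_zero.2 (hxy i)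
    rw [div_eq_iff h2] at h1
    exact h1
  choose g hg1 hg2 using hg
  let P : (↥S ⊕ ↥T) × Bool → X := fun v => match v with
    | (Sum.inl i, false) => x i
    | (Sum.inl i, true) => y i
    | (Sum.inr z, _) => z
  let c : (↥S ⊕ ↥T) × Bool → (↥S ⊕ ↥T) × Bool → ℝ := fun v w =>
    ⨆ α : (↥S → Bool), |g α (P v) - g α (P w)|
  have hbd : ∀ v w, BddAbove (Set.range fun α : (↥S → Bool) => |g α (P v) - g α (P w)|) :=
    fun v w => (Set.finite_range _).bddAbove
  have hle : ∀ v w α, |g α (P v) - g α (P w)| ≤ c v w := fun v w α => le_ciSup (hbd v w) α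
  have hcK : ∀ v w, c v w ≤ K * dist (P v) (P w) := fun v w => ciSup_le fun α => (hg1 α).2 _ _
  have hc0 : ∀ v w, P v = P w → c v w = 0 := by
    intro v w h
    have : ∀ α : (↥S → Bool), |g α (P v) - g α (P w)| = 0 := fun α => by
      rw [h, sub_self, abs_zero]
    simp only [c, this]
    exact ciSup_const
  have hps : IsPseudo c := by
    refine ⟨fun v => hc0 v v rfl, fun v w => ?_, fun a b d => ?_⟩
    · simp only [c]
      congr 1
      ext α
      rw [abs_sub_comm]
    · exact ciSup_le fun α => (abs_sub_le _ (g α (P b)) _).trans (add_le_add (hle _ _ _)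
        (hle _ _ _))
  have hcd : ∀ i : ↥S, c (Sum.inl i, false) (Sum.inl i, true) = dist (x i) (y i) := by
    intro i
    have : ∀ α : (↥S → Bool), |g α (P (Sum.inl i, false)) - g α (P (Sum.inl i, true))| =
        dist (x i) (y i) := by
      intro α
      change |g α (x i) - g α (y i)| = _
      rw [hg2 α i, abs_mul, abs_of_nonneg (dist_nonneg (x := x i) (y := y i))]
      split_ifs <;> simp
    simp only [c, this]
    exact ciSup_const
  have hopt : ∀ τ, IsPM τ → cost c flip' ≤ cost c τ := by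
    intro τ hτ
    refine opt_of_signs c hps.symm (fun α => ?_) τ hτ
    refine ⟨fun v => g (fun i => α (Sum.inl i)) (P v), fun v w => hle v w _, fun j => ?_⟩
    rcases j with i | z
    · rw [hcd]
      exact hg2 _ i
    · rw [hc0 (Sum.inr z, false) (Sum.inr z, true) rfl, mul_zero]
      exact sub_self _
  obtain ⟨F, hF1, hF2, hF3⟩ := finite_case c hps hopt
  -- the values only depend on the point
  have hFP : ∀ j v w, P v = P w → F j v = F j w := by
    intro j v w h
    have h1 := hF3 v w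
    rw [hc0 v w h] at h1
    have h2 := single_le_sum (f := fun i => |F i v - F i w|) (fun i _ => abs_nonneg _)
      (mem_univ j)
    have h3 : |F j v - F j w| ≤ 0 := h2.trans h1
    have h4 := abs_nonpos_iff.1 h3
    linarith
  let φ : I → X → ℝ := fun i z => if h : i ∈ S ∧ z ∈ T then
    F (Sum.inl ⟨i, h.1⟩) (Sum.inr ⟨z, h.2⟩, false) - F (Sum.inl ⟨i, h.1⟩) (Sum.inr ⟨o, ho⟩, false)
    else 0
  have hφ : ∀ (i : ↥S) (z : ↥T), φ i z = F (Sum.inl i) (Sum.inr z, false) -
      F (Sum.inl i) (Sum.inr ⟨o, ho⟩, false) := by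
    intro i z
    simp only [φ]
    rw [dif_pos ⟨i.2, z.2⟩]
  have hsum : ∀ v w : (↥S ⊕ ↥T) × Bool, ∑ i : ↥S, |F (Sum.inl i) v - F (Sum.inl i) w| ≤
      K * dist (P v) (P w) := by
    intro v w
    refine le_trans ?_ ((hF3 v w).trans (hcK v w))
    rw [Fintype.sum_sum_type]
    exact le_add_of_nonneg_right (sum_nonneg fun _ _ => abs_nonneg _)
  refine ⟨φ, fun i z => ?_, fun i hi j hj _ hxj hyj => ?_, fun i hi _ => ?_,
    fun z hz w hw _ => ?_⟩
  · by_cases h : i ∈ S ∧ z ∈ T
    · have h1 := hφ ⟨i, h.1⟩ ⟨z, h.2⟩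
      change φ i z = _ at h1
      rw [h1]
      have h2 := hsum (Sum.inr ⟨z, h.2⟩, false) (Sum.inr ⟨o, ho⟩, false)
      have h3 := single_le_sum (f := fun i : ↥S => |F (Sum.inl i) (Sum.inr ⟨z, h.2⟩, false) -
        F (Sum.inl i) (Sum.inr ⟨o, ho⟩, false)|) (fun i _ => abs_nonneg _)
        (mem_univ (⟨i, h.1⟩ : ↥S))
      refine h3.trans (h2.trans ?_)
      exact mul_le_mul_of_nonneg_right (le_abs_self K) dist_nonneg
    · simp only [φ]
      rw [dif_neg h, abs_zero]
      positivity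
  · have h1 := hφ ⟨i, hi⟩ ⟨x j, hxj⟩
    have h2 := hφ ⟨i, hi⟩ ⟨y j, hyj⟩
    change φ i (x j) = _ at h1
    change φ i (y j) = _ at h2
    rw [h1, h2]
    have h3 := hFP (Sum.inl ⟨i, hi⟩) (Sum.inr ⟨x j, hxj⟩, false) (Sum.inl ⟨j, hj⟩, false) rfl
    have h4 := hFP (Sum.inl ⟨i, hi⟩) (Sum.inr ⟨y j, hyj⟩, false) (Sum.inl ⟨j, hj⟩, true) rfl
    rw [h3, h4]
    by_cases hij : i = j
    · subst hij
      rw [if_pos rfl]
      have h5 := hF1 (Sum.inl ⟨i, hi⟩)
      rw [hcd] at h5
      linarith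
    · rw [if_neg hij]
      have h5 := hF2 (Sum.inl ⟨i, hi⟩) (Sum.inl ⟨j, hj⟩) (by simpa using hij)
      rw [h5]
      ring
  · have h1 := hφ ⟨i, hi⟩ ⟨o, ho⟩
    change φ i o = _ at h1
    rw [h1, sub_self]
  · have h1 := hsum (Sum.inr ⟨z, hz⟩, false) (Sum.inr ⟨w, hw⟩, false)
    refine le_trans (le_of_eq ?_) h1
    rw [← sum_coe_sort S]
    refine sum_congr rfl fun i _ => ?_
    have h2 := hφ i ⟨z, hz⟩
    have h3 := hφ i ⟨w, hw⟩
    change φ i z = _ at h2
    change φ i w = _ at h3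
    rw [h2, h3]
    congr 1
    ring

/-- **All metric spaces.** -/
theorem beurling_of_ballLift [DecidableEq I] (hxy : ∀ i, x i ≠ y i) {K : ℝ}
    (hK : BallLift o x y K) :
    ∃ f : I → X → ℝ, (∀ i, f i o = 0) ∧
      (∀ i j, f i (x j) - f i (y j) = if i = j then dist (x j) (y j) else 0) ∧
      ∀ (z w : X) (S : Finset I), ∑ i ∈ S, |f i z - f i w| ≤ K * dist z w := by
  classical
  choose φ h1 h2 h3 h4 using fun s : Finset I × Finset X => finite_step (o := o) hxy hK s.1 s.2
  let U : Ultrafilter (Finset I × Finset X) := Ultrafilter.of atTop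
  have hU : (U : Filter (Finset I × Finset X)) ≤ atTop := Ultrafilter.of_le _
  choose f hf1 hf2 using fun (i : I) (z : X) => exists_ulim U (fun s => φ s i z) _
    (fun s => h1 s i z)
  have hev : ∀ (S : Finset I) (T : Finset X), ∀ᶠ s in (U : Filter (Finset I × Finset X)),
      S ⊆ s.1 ∧ T ⊆ s.2 := by
    intro S T
    refine hU ?_
    filter_upwards [eventually_ge_atTop (S, T)] with s hs
    exact ⟨hs.1, hs.2⟩
  refine ⟨f, fun i => ?_, fun i j => ?_, fun z w S => ?_⟩
  · refine tendsto_nhds_unique (hf2 i o) (tendsto_const_nhds.congr' ?_)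
    filter_upwards [hev {i} {o}] with s hs
    exact (h3 s i (hs.1 (mem_singleton_self i)) (hs.2 (mem_singleton_self o))).symm
  · refine tendsto_nhds_unique ((hf2 i (x j)).sub (hf2 i (y j))) (tendsto_const_nhds.congr' ?_)
    filter_upwards [hev {i, j} {o, x j, y j}] with s hs
    exact (h2 s i (hs.1 (by simp)) j (hs.1 (by simp)) (hs.2 (by simp)) (hs.2 (by simp))
      (hs.2 (by simp))).symm
  · have h5 : Tendsto (fun s => ∑ i ∈ S, |φ s i z - φ s i w|) U
        (𝓝 (∑ i ∈ S, |f i z - f i w|)) :=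
      tendsto_finsetSum _ fun i _ => ((hf2 i z).sub (hf2 i w)).abs
    refine le_of_tendsto h5 ?_
    filter_upwards [hev S {o, z, w}] with s hs
    refine le_trans (sum_le_sum_of_subset_of_nonneg hs.1 fun _ _ _ => abs_nonneg _) ?_
    exact h4 s z (hs.2 (by simp)) w (hs.2 (by simp)) (hs.2 (by simp))

/-- Pointwise limits. -/
lemma lip_limit {ι : Type*} (U : Ultrafilter ι) (g : ι → X → ℝ) (Ks : ι → ℝ) {K C : ℝ}
    (hKC : ∀ s, Ks s ≤ C) (hK : Tendsto Ks U (𝓝 K)) (hg : ∀ s, LipBound o (Ks s) (g s))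
    (α : I → ℝ) (hα : ∀ i, Tendsto (fun s => dq (x i) (y i) (g s)) U (𝓝 (α i))) :
    ∃ g' : X → ℝ, LipBound o K g' ∧ ∀ i, dq (x i) (y i) g' = α i := by
  have hb : ∀ (z : X) (s : ι), |g s z| ≤ C * dist z o := by
    intro z s
    have h1 := (hg s).2 z o
    rw [(hg s).1, sub_zero] at h1
    exact h1.trans (mul_le_mul_of_nonneg_right (hKC s) dist_nonneg)
  choose g' hg1 hg2 using fun z : X => exists_ulim U (fun s => g s z) _ (hb z)
  refine ⟨g', ⟨?_, fun a b => ?_⟩, fun i => ?_⟩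
  · refine tendsto_nhds_unique (hg2 o) (tendsto_const_nhds.congr fun s => ((hg s).1).symm)
  · exact le_of_tendsto_of_tendsto ((hg2 a).sub (hg2 b)).abs (hK.mul_const _)
      (Eventually.of_forall fun s => (hg s).2 a b)
  · refine tendsto_nhds_unique ?_ (hα i)
    exact ((hg2 (x i)).sub (hg2 (y i))).div_const _

/-- The infimum defining the interpolation constant is attained. -/
lemma ballLift_interpConst (hne : ∃ K : ℝ, 1 ≤ K ∧ BallLift o x y K) :
    BallLift o x y (interpConst o x y) := by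
  intro α hα
  set M := interpConst o x y with hM
  have hbb : BddBelow {K : ℝ | 1 ≤ K ∧ BallLift o x y K} := ⟨1, fun K hK => hK.1⟩
  have h1 : ∀ n : ℕ, ∃ g : X → ℝ, LipBound o (M + 1 / (n + 1)) g ∧
      ∀ i, dq (x i) (y i) g = α i := by
    intro n
    obtain ⟨K, hK1, hK2⟩ := (csInf_lt_iff hbb hne).1
      (show sInf {K : ℝ | 1 ≤ K ∧ BallLift o x y K} < M + 1 / (n + 1) from
        lt_add_of_pos_right _ (by positivity))
    obtain ⟨g, hg1, hg2⟩ := hK1.2 α hα
    exact ⟨g, ⟨hg1.1, fun a b => (hg1.2 a b).trans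
      (mul_le_mul_of_nonneg_right hK2.le dist_nonneg)⟩, hg2⟩
  choose g hg1 hg2 using h1
  let U : Ultrafilter ℕ := Ultrafilter.of atTop
  have hU : (U : Filter ℕ) ≤ atTop := Ultrafilter.of_le _
  refine lip_limit U g (fun n => M + 1 / (n + 1)) (C := M + 1) (fun n => ?_) ?_ hg1 α ?_
  · have : (1 : ℝ) / (n + 1) ≤ 1 := by
      rw [div_le_one (by positivity)]
      linarith [(Nat.cast_nonneg n : (0 : ℝ) ≤ n)]
    linarith
  · have := (tendsto_one_div_add_atTop_nhds_zero_nat (𝕜 := ℝ)).mono_left hU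
    simpa using this.const_add M
  · intro i
    exact tendsto_const_nhds.congr fun n => (hg2 n i).symm

/-- The interpolation constant is finite, by Baire's theorem. -/
lemma exists_ballLift (hT : IsInterpolating o x y) : ∃ K : ℝ, 1 ≤ K ∧ BallLift o x y K := by
  let E := lp (fun _ : I => ℝ) ⊤
  let A : ℕ → Set E := fun n => {α | ∃ g : X → ℝ, LipBound o n g ∧ ∀ i, dq (x i) (y i) g = α i}
  have hcl : ∀ n, IsClosed (A n) := by
    intro n
    refine IsSeqClosed.isClosed fun α β hα hβ => ?_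
    choose g hg1 hg2 using hα
    let U : Ultrafilter ℕ := Ultrafilter.of atTop
    have hU : (U : Filter ℕ) ≤ atTop := Ultrafilter.of_le _
    refine lip_limit U g (fun _ => (n : ℝ)) (C := n) (fun _ => le_rfl) tendsto_const_nhds hg1 _ ?_
    intro i
    have h1 : Tendsto (fun k => (α k : I → ℝ) i) atTop (𝓝 ((β : I → ℝ) i)) := by
      rw [tendsto_iff_norm_sub_tendsto_zero] at hβ ⊢
      refine squeeze_zero (fun k => norm_nonneg _) (fun k => ?_) hβ
      exact lp.norm_apply_le_norm (by simp) (α k - β) i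
    exact (h1.mono_left hU).congr fun k => (hg2 k i).symm
  have hun : ⋃ n, A n = Set.univ := by
    refine Set.eq_univ_of_forall fun α => ?_
    obtain ⟨K, g, hg1, hg2⟩ := hT (fun i => α i) ⟨‖α‖, fun i => lp.norm_apply_le_norm (by simp) α i⟩
    obtain ⟨n, hn⟩ := exists_nat_ge K
    exact Set.mem_iUnion.2 ⟨n, g, ⟨hg1.1, fun a b => (hg1.2 a b).trans
      (mul_le_mul_of_nonneg_right hn dist_nonneg)⟩, hg2⟩
  obtain ⟨n, α₀, hα₀⟩ := nonempty_interior_of_iUnion_of_closed hcl hun
  obtain ⟨r, hr, hball⟩ := Metric.isOpen_iff.1 isOpen_interior α₀ hα₀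
  refine ⟨max 1 (2 * n * (2 / r)), le_max_left _ _, fun β hβ => ?_⟩
  have hmem : Memℓp (fun i => r / 2 * β i) ⊤ := memℓp_infty ⟨r / 2, by
    rintro _ ⟨i, rfl⟩
    change ‖r / 2 * β i‖ ≤ r / 2
    rw [norm_mul, Real.norm_of_nonneg (by positivity), Real.norm_eq_abs]
    nlinarith [hβ i, abs_nonneg (β i)]⟩
  let b : E := ⟨fun i => r / 2 * β i, hmem⟩
  have hb : ‖b‖ < r := by
    refine lt_of_le_of_lt (lp.norm_le_of_forall_le (by positivity) fun i => ?_) (half_lt_self hr)
    change ‖r / 2 * β i‖ ≤ r / 2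
    rw [norm_mul, Real.norm_of_nonneg (by positivity), Real.norm_eq_abs]
    nlinarith [hβ i, abs_nonneg (β i)]
  obtain ⟨g₁, hg1, hg1'⟩ := interior_subset (hball (show α₀ + b ∈ Metric.ball α₀ r by
    rw [mem_ball_iff_norm, add_sub_cancel_left]; exact hb))
  obtain ⟨g₂, hg2, hg2'⟩ := interior_subset (hball (show α₀ ∈ Metric.ball α₀ r from
    Metric.mem_ball_self hr))
  refine ⟨fun z => (2 / r) * (g₁ z - g₂ z), ⟨by
    change 2 / r * (g₁ o - g₂ o) = 0
    rw [hg1.1, hg2.1]; ring, fun a c => ?_⟩,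
    fun i => ?_⟩
  · have e : (2 / r) * (g₁ a - g₂ a) - (2 / r) * (g₁ c - g₂ c) =
        (2 / r) * ((g₁ a - g₁ c) - (g₂ a - g₂ c)) := by ring
    rw [e, abs_mul, abs_of_pos (show 0 < 2 / r by positivity)]
    calc 2 / r * |g₁ a - g₁ c - (g₂ a - g₂ c)| ≤ 2 / r * (n * dist a c + n * dist a c) := by
          refine mul_le_mul_of_nonneg_left ?_ (by positivity)
          exact (abs_sub _ _).trans (add_le_add (hg1.2 a c) (hg2.2 a c))
      _ = (2 * n * (2 / r)) * dist a c := by ring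
      _ ≤ _ := mul_le_mul_of_nonneg_right (le_max_right _ _) dist_nonneg
  · have e1 := hg1' i
    have e2 := hg2' i
    have e3 : (α₀ + b : E) i = α₀ i + r / 2 * β i := rfl
    rw [e3] at e1
    unfold dq at e1 e2 ⊢
    have e4 : (2 / r * (g₁ (x i) - g₂ (x i)) - 2 / r * (g₁ (y i) - g₂ (y i))) /
        dist (x i) (y i) = 2 / r * ((g₁ (x i) - g₁ (y i)) / dist (x i) (y i) -
          (g₂ (x i) - g₂ (y i)) / dist (x i) (y i)) := by ring
    rw [e4, e1, e2]
    field_simp
    ring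

/-- **Every Lipschitz interpolating family has a Beurling set.** -/
theorem exists_beurling [DecidableEq I] (hxy : ∀ i, x i ≠ y i) (hT : IsInterpolating o x y) :
    ∃ f : I → X → ℝ, IsBeurling o x y (interpConst o x y) f := by
  classical
  obtain ⟨f, h1, h2, h3⟩ := beurling_of_ballLift hxy (ballLift_interpConst (exists_ballLift hT))
  refine ⟨f, fun i => ⟨interpConst o x y, h1 i, fun a b => ?_⟩, fun i j => ?_, fun z w hzw => ?_⟩
  · have := h3 a b {i}
    rwa [sum_singleton] at this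
  · unfold dq
    rw [h2 i j]
    have h4 : dist (x j) (y j) ≠ 0 := dist_ne_zero.2 (hxy j)
    split_ifs
    · exact div_self h4
    · exact zero_div _
  · have h4 : 0 < dist z w := dist_pos.2 hzw
    have h5 : ∀ S : Finset I, ∑ i ∈ S, |dq z w (f i)| ≤ interpConst o x y := by
      intro S
      have h6 := h3 z w S
      have h7 : ∑ i ∈ S, |dq z w (f i)| = (∑ i ∈ S, |f i z - f i w|) / dist z w := by
        rw [sum_div]
        refine sum_congr rfl fun i _ => ?_
        unfold dq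
        rw [abs_div, abs_of_pos h4]
      rw [h7, div_le_iff₀ h4]
      exact h6
    have h8 : Summable fun i => |dq z w (f i)| :=
      summable_of_sum_le (fun i => abs_nonneg _) h5
    exact ⟨h8, h8.tsum_le_of_sum_le h5⟩

end

end Pool.Agent.Q197.Beur
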