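import Pool.Agent.Q197.Beur.Exchange
import Mathlib.Topology.Order.Compact
import Mathlib.Topology.Instances.Real.Lemmas
import Mathlib.Topology.MetricSpace.ProperSpace
import Mathlib.Topology.Algebra.Order.LiminfLimsup

/-!
# A minimal pseudometric for which a given perfect matching is optimal is a tree metric
-/

set_option autoImplicit false

namespace Pool.Agent.Q197.Beur

open Finset Filter Topology

/-- `c` is a pseudometric. -/
structure IsPseudo {V : Type*} (c : V → V → ℝ) : Prop where
  self : ∀ v, c v v = 0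
  symm : ∀ v w, c v w = c w v
  tri : ∀ u v w, c u w ≤ c u v + c v w

lemma IsPseudo.nonneg {V : Type*} {c : V → V → ℝ} (h : IsPseudo c) (v w : V) : 0 ≤ c v w := by
  have h1 := h.tri v w v
  rw [h.self, h.symm w v] at h1
  linarith

/-- The four point condition. -/
def FourPoint {V : Type*} (c : V → V → ℝ) : Prop :=
  ∀ a b u v : V, c a b + c u v ≤ max (c a u + c b v) (c a v + c b u)

/-- The distance of `a` and `b` is lowered by `ε`. -/
noncomputable def low {V : Type*} (c : V → V → ℝ) (a b : V) (ε : ℝ) (x y : V) : ℝ :=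
  min (c x y) (min (c x a + (c a b - ε) + c b y) (c x b + (c a b - ε) + c a y))

lemma low_le {V : Type*} (c : V → V → ℝ) (a b : V) (ε : ℝ) (x y : V) : low c a b ε x y ≤ c x y :=
  min_le_left _ _

lemma low_self {V : Type*} {c : V → V → ℝ} (h : IsPseudo c) (a b : V) (ε : ℝ) :
    low c a b ε a b ≤ c a b - ε := by
  refine (min_le_right _ _).trans ((min_le_left _ _).trans ?_)
  rw [h.self, h.self]
  linarith

lemma low_pseudo {V : Type*} {c : V → V → ℝ} (h : IsPseudo c) (a b : V) {ε : ℝ}
    (h1 : ε ≤ c a b) : IsPseudo (low c a b ε) := by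
  have hn := h.nonneg
  refine ⟨fun v => ?_, fun v w => ?_, fun x y z => ?_⟩
  · unfold low
    rw [h.self]
    refine le_antisymm (min_le_left _ _) (le_min le_rfl (le_min ?_ ?_))
    · linarith [hn v a, hn b v]
    · linarith [hn v b, hn a v]
  · unfold low
    rw [h.symm v w, min_comm (c v a + (c a b - ε) + c b w), h.symm v b, h.symm v a, h.symm b w,
      h.symm a w]
    congr 1
    congr 1 <;> ring
  · have e1 : low c a b ε x z ≤ c x z := min_le_left _ _
    have e2 : low c a b ε x z ≤ c x a + (c a b - ε) + c b z :=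
      (min_le_right _ _).trans (min_le_left _ _)
    have e3 : low c a b ε x z ≤ c x b + (c a b - ε) + c a z :=
      (min_le_right _ _).trans (min_le_right _ _)
    have t1 := h.tri x y z
    have t2 := h.tri x y a
    have t3 := h.tri x y b
    have t4 := h.tri b y z
    have t5 := h.tri a y z
    have t6 := h.tri x a z
    have t7 := h.tri x b z
    have n1 := hn b y
    have n2 := hn y a
    have n3 := hn a y
    have n4 := hn y b
    rcases min_choice (c x y) (min (c x a + (c a b - ε) + c b y) (c x b + (c a b - ε) + c a y))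
      with f | f
    · rcases min_choice (c y z) (min (c y a + (c a b - ε) + c b z) (c y b + (c a b - ε) + c a z))
        with g | g
      · change _ ≤ min _ _ + min _ _
        rw [f, g]
        linarith
      · change _ ≤ min _ _ + min _ _
        rw [f, g]
        rcases min_choice (c y a + (c a b - ε) + c b z) (c y b + (c a b - ε) + c a z) with k | k <;>
          rw [k] <;> linarith
    · rcases min_choice (c y z) (min (c y a + (c a b - ε) + c b z) (c y b + (c a b - ε) + c a z))
        with g | g
      · change _ ≤ min _ _ + min _ _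
        rw [f, g]
        rcases min_choice (c x a + (c a b - ε) + c b y) (c x b + (c a b - ε) + c a y) with k | k <;>
          rw [k] <;> linarith
      · change _ ≤ min _ _ + min _ _
        rw [f, g]
        rcases min_choice (c x a + (c a b - ε) + c b y) (c x b + (c a b - ε) + c a y) with k | k <;>
        rcases min_choice (c y a + (c a b - ε) + c b z) (c y b + (c a b - ε) + c a z) with l | l <;>
          rw [k, l] <;> linarith

variable {V : Type*} [Fintype V]

/-- The class of pseudometrics below `c₀` for which all perfect matchings cost at least `m`. -/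
def Cls (c₀ : V → V → ℝ) (m : ℝ) : Set (V → V → ℝ) :=
  {c | IsPseudo c ∧ (∀ v w, c v w ≤ c₀ v w) ∧ ∀ τ, IsPM τ → m ≤ cost c τ}

lemma cls_compact (c₀ : V → V → ℝ) (m : ℝ) : IsCompact (Cls c₀ m) := by
  have h1 : IsCompact (Set.pi Set.univ fun v : V => Set.pi Set.univ fun w : V =>
      Set.Icc (0 : ℝ) (c₀ v w)) :=
    isCompact_univ_pi fun v => isCompact_univ_pi fun w => isCompact_Icc
  refine h1.of_isClosed_subset ?_ ?_
  · have c2 : ∀ v w : V, Continuous fun c : V → V → ℝ => c v w := fun v w => by fun_prop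
    have e : Cls c₀ m = {c | ∀ v, c v v = 0} ∩ {c | ∀ v w, c v w = c w v} ∩
        {c | ∀ u v w, c u w ≤ c u v + c v w} ∩ {c | ∀ v w, c v w ≤ c₀ v w} ∩
        {c | ∀ τ, IsPM τ → m ≤ cost c τ} := by
      ext c
      constructor
      · rintro ⟨⟨a1, a2, a3⟩, a4, a5⟩
        exact ⟨⟨⟨⟨a1, a2⟩, a3⟩, a4⟩, a5⟩
      · rintro ⟨⟨⟨⟨a1, a2⟩, a3⟩, a4⟩, a5⟩
        exact ⟨⟨a1, a2, a3⟩, a4, a5⟩
    rw [e]
    refine IsClosed.inter (IsClosed.inter (IsClosed.inter (IsClosed.inter ?_ ?_) ?_) ?_) ?_
    · simp only [Set.ofPred_forall]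
      exact isClosed_iInter fun v => isClosed_eq (c2 _ _) continuous_const
    · simp only [Set.ofPred_forall]
      exact isClosed_iInter fun v => isClosed_iInter fun w => isClosed_eq (c2 _ _) (c2 _ _)
    · simp only [Set.ofPred_forall]
      exact isClosed_iInter fun u => isClosed_iInter fun v => isClosed_iInter fun w =>
        isClosed_le (c2 _ _) ((c2 _ _).add (c2 _ _))
    · simp only [Set.ofPred_forall]
      exact isClosed_iInter fun v => isClosed_iInter fun w => isClosed_le (c2 _ _) continuous_const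
    · simp only [Set.ofPred_forall]
      exact isClosed_iInter fun τ => isClosed_iInter fun _ =>
        isClosed_le continuous_const (continuous_finsetSum _ fun v _ => c2 _ _)
  · rintro c ⟨h2, h3, -⟩ v _ w _
    exact ⟨h2.nonneg v w, h3 v w⟩

/-- A least element of the class. -/
lemma exists_least {c₀ : V → V → ℝ} {m : ℝ} (h : (Cls c₀ m).Nonempty) :
    ∃ c ∈ Cls c₀ m, ∀ c' ∈ Cls c₀ m, (∀ v w, c' v w ≤ c v w) → ∀ v w, c' v w = c v w := by
  obtain ⟨c, hc, hmin⟩ := (cls_compact c₀ m).exists_isMinOn h
    (f := fun c => ∑ v, ∑ w, c v w) (by fun_prop)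
  refine ⟨c, hc, fun c' hc' hle => ?_⟩
  have h1 : ∑ v, ∑ w, c v w ≤ ∑ v, ∑ w, c' v w := hmin hc'
  by_contra hne
  push Not at hne
  obtain ⟨a, b, hab⟩ := hne
  have h2 : ∑ v, ∑ w, c' v w < ∑ v, ∑ w, c v w := by
    refine sum_lt_sum (fun v _ => sum_le_sum fun w _ => hle v w) ⟨a, mem_univ _, ?_⟩
    exact sum_lt_sum (fun w _ => hle a w) ⟨b, mem_univ _, lt_of_le_of_ne (hle a b) hab⟩
  linarith

/-- In a least element every positive distance lies on a geodesic along an edge of an optimal
perfect matching. -/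
lemma exists_tight {c₀ : V → V → ℝ} {m : ℝ} {c : V → V → ℝ} (hc : c ∈ Cls c₀ m)
    (hmin : ∀ c' ∈ Cls c₀ m, (∀ v w, c' v w ≤ c v w) → ∀ v w, c' v w = c v w)
    (a b : V) (hab : 0 < c a b) :
    ∃ τ, IsPM τ ∧ cost c τ = m ∧ ∃ p, c p a + c a b + c b (τ p) ≤ c p (τ p) := by
  classical
  by_contra hcon
  push Not at hcon
  obtain ⟨h1, h2, h3⟩ := hc
  have hcont : ∀ x y, Tendsto (fun ε : ℝ => low c a b ε x y) (𝓝[>] 0) (𝓝 (c x y)) := by
    intro x y
    have hc2 : Continuous fun ε : ℝ => low c a b ε x y := by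
      unfold low
      fun_prop
    have h4 := hc2.tendsto 0
    have h5 : low c a b 0 x y = c x y := by
      unfold low
      refine min_eq_left (le_min ?_ ?_)
      · linarith [h1.tri x a y, h1.tri a b y]
      · linarith [h1.tri x b y, h1.tri b a y, h1.symm a b]
    rw [h5] at h4
    exact h4.mono_left nhdsWithin_le_nhds
  have key : ∀ᶠ ε : ℝ in 𝓝[>] 0, ∀ τ : V → V, IsPM τ → m ≤ cost (low c a b ε) τ := by
    rw [eventually_all]
    intro τ
    by_cases hτ : IsPM τ
    · rcases (h3 τ hτ).eq_or_lt with h4 | h4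
      · -- tight matching
        have h5 : ∀ᶠ ε : ℝ in 𝓝[>] 0, ∀ v, low c a b ε v (τ v) = c v (τ v) := by
          rw [eventually_all]
          intro v
          have h6 := hcon τ hτ h4.symm v
          have h7 := hcon τ hτ h4.symm (τ v)
          rw [hτ.1] at h7
          have g1 : Tendsto (fun ε : ℝ => c v a + (c a b - ε) + c b (τ v)) (𝓝[>] 0)
              (𝓝 (c v a + (c a b - 0) + c b (τ v))) :=
            (Continuous.tendsto (by fun_prop) 0).mono_left nhdsWithin_le_nhds
          have g2 : Tendsto (fun ε : ℝ => c v b + (c a b - ε) + c a (τ v)) (𝓝[>] 0)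
              (𝓝 (c v b + (c a b - 0) + c a (τ v))) :=
            (Continuous.tendsto (by fun_prop) 0).mono_left nhdsWithin_le_nhds
          have k1 := g1.eventually_const_lt (u := c v (τ v)) (by linarith)
          have k2 := g2.eventually_const_lt (u := c v (τ v))
            (by linarith [h1.symm (τ v) a, h1.symm v b, h1.symm (τ v) v])
          filter_upwards [k1, k2] with ε e1 e2
          exact min_eq_left (le_min e1.le e2.le)
        filter_upwards [h5] with ε hε _
        rw [h4]
        exact le_of_eq (sum_congr rfl fun v _ => (hε v).symm)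
      · have h5 : Tendsto (fun ε : ℝ => cost (low c a b ε) τ) (𝓝[>] 0) (𝓝 (cost c τ)) :=
          tendsto_finsetSum _ fun v _ => hcont _ _
        filter_upwards [h5.eventually_const_lt h4] with ε hε _
        exact hε.le
    · exact Eventually.of_forall fun ε h => absurd h hτ
  have key2 : ∀ᶠ ε : ℝ in 𝓝[>] 0, ε ∈ Set.Ioc 0 (c a b) := Ioc_mem_nhdsGT hab
  obtain ⟨ε, hε1, hε2⟩ := (key.and key2).exists
  have h6 : low c a b ε ∈ Cls c₀ m :=
    ⟨low_pseudo h1 a b hε2.2, fun v w => (low_le c a b ε v w).trans (h2 v w), hε1⟩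
  have h7 := hmin _ h6 (low_le c a b ε) a b
  have h8 := low_self h1 a b ε
  linarith [hε2.1]

/-- **The least pseudometric satisfies the four point condition.** -/
theorem fourPoint {c₀ : V → V → ℝ} {m : ℝ} {c : V → V → ℝ} (hc : c ∈ Cls c₀ m)
    (hmin : ∀ c' ∈ Cls c₀ m, (∀ v w, c' v w ≤ c v w) → ∀ v w, c' v w = c v w) :
    FourPoint c := by
  classical
  intro a b u v
  have h1 := hc.1
  rcases (h1.nonneg a b).eq_or_lt with h2 | h2
  · refine le_max_of_le_left ?_
    rw [← h2, zero_add]
    have t1 := h1.tri u a v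
    have t2 := h1.tri a b v
    rw [h1.symm u a] at t1
    linarith
  rcases (h1.nonneg u v).eq_or_lt with h3 | h3
  · refine le_max_of_le_left ?_
    rw [← h3, add_zero]
    have t1 := h1.tri a u b
    have t2 := h1.tri u v b
    rw [h1.symm v b] at t2
    linarith
  obtain ⟨τ, hτ, hτm, p, hp⟩ := exists_tight hc hmin a b h2
  obtain ⟨τ', hτ', hτm', r, hr⟩ := exists_tight hc hmin u v h3
  rcases exchange c h1.symm hτ hτ' hc.2.2 hτm hτm' p r with h4 | h4
  · refine le_max_of_le_left ?_
    have t1 := h1.tri p a r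
    have t2 := h1.tri a u r
    have t3 := h1.tri (τ p) b (τ' r)
    have t4 := h1.tri b v (τ' r)
    rw [h1.symm (τ p) b] at t3
    rw [h1.symm u r] at t2
    linarith
  · refine le_max_of_le_right ?_
    have t1 := h1.tri p a (τ' r)
    have t2 := h1.tri a v (τ' r)
    have t3 := h1.tri (τ p) b r
    have t4 := h1.tri b u r
    rw [h1.symm (τ p) b] at t3
    rw [h1.symm u r] at t4
    linarith

end Pool.Agent.Q197.Beur
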