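import Pool.Agent.Q197.Beur.Tree
import Mathlib.GroupTheory.Perm.Cycle.Basic

/-!
# Optimality of the matching of the segments from one Lipschitz function for each choice of signs
-/

set_option autoImplicit false

namespace Pool.Agent.Q197.Beur

open Finset

/-- The union of two perfect matchings is bipartite. -/
lemma exists_colour {V : Type*} [Fintype V] [DecidableEq V] {σ τ : V → V} (h1 : IsPM σ)
    (h2 : IsPM τ) : ∃ s : V → Bool, (∀ v, s (σ v) = !(s v)) ∧ ∀ v, s (τ v) = !(s v) := by
  classical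
  let π : Equiv.Perm V := (Equiv.mk σ σ h1.1 h1.1).trans (Equiv.mk τ τ h2.1 h2.1)
  have hπ : ∀ v, π v = τ (σ v) := fun v => rfl
  let Q := Quotient (Equiv.Perm.SameCycle.setoid π)
  have hQ : Finite Q := Quotient.finite _
  obtain ⟨r, hr⟩ : ∃ r : Q → ℕ, Function.Injective r := by
    have e := Finite.equivFin Q
    exact ⟨fun q => (e q : ℕ), fun a b hab => e.injective (Fin.ext hab)⟩
  let q : V → Q := fun v => Quotient.mk _ v
  have hq : ∀ v w, q v = q w ↔ π.SameCycle v w := fun v w => Quotient.eq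
  have q1 : ∀ v, q (σ v) ≠ q v := by
    intro v hc
    have h3 := (hq _ _).1 hc
    obtain ⟨n, -, hn⟩ := h3.exists_pow_eq'
    have h4 := aw_ne h1 h2 (σ v) n 0
    apply h4
    change (⇑π)^[n] (σ v) = σ (σ v)
    rw [h1.1, Equiv.Perm.iterate_eq_pow, hn]
  have q2 : ∀ v, q (τ v) = q (σ v) := by
    intro v
    rw [hq]
    refine ⟨-1, ?_⟩
    rw [zpow_neg_one, Equiv.Perm.inv_eq_iff_eq, hπ, h1.1]
  have q3 : ∀ v, q (σ (τ v)) = q v := by
    intro v
    rw [hq]
    refine ⟨1, ?_⟩
    rw [zpow_one, hπ, h1.1, h2.1]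
  have flip : ∀ a b : ℕ, a ≠ b → decide (b < a) = !decide (a < b) := by
    intro a b hab
    rcases lt_or_gt_of_ne hab with h | h
    · simp [h, h.le]
    · simp [h, not_lt.2 h.le]
  refine ⟨fun v => decide (r (q v) < r (q (σ v))), fun v => ?_, fun v => ?_⟩
  · change decide (r (q (σ v)) < r (q (σ (σ v)))) = _
    rw [h1.1]
    exact flip _ _ fun h => q1 v (hr h).symm
  · change decide (r (q (τ v)) < r (q (σ (τ v)))) = _
    rw [q2, q3]
    exact flip _ _ fun h => q1 v (hr h).symm

/-- Optimality of the matching of the segments. -/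
lemma opt_of_signs {J : Type*} [Fintype J] [DecidableEq J] (c : J × Bool → J × Bool → ℝ)
    (hs : ∀ v w, c v w = c w v)
    (h : ∀ α : J → Bool, ∃ g : J × Bool → ℝ, (∀ v w, |g v - g w| ≤ c v w) ∧
      ∀ j, g (j, false) - g (j, true) = (if α j then 1 else -1) * c (j, false) (j, true))
    (τ : J × Bool → J × Bool) (hτ : IsPM τ) : cost c flip' ≤ cost c τ := by
  classical
  obtain ⟨s, hs1, hs2⟩ := exists_colour (flip'_pm (J := J)) hτ
  obtain ⟨g, hg1, hg2⟩ := h fun j => s (j, false)
  let S : J × Bool → ℝ := fun v => if s v then 1 else -1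
  have S1 : ∀ v, S (flip' v) = - S v := by
    intro v
    simp only [S, hs1]
    cases s v <;> simp
  have S2 : ∀ v, S (τ v) = - S v := by
    intro v
    simp only [S, hs2]
    cases s v <;> simp
  have SS : ∀ v, S v * S v = 1 := by
    intro v
    simp only [S]
    split_ifs <;> norm_num
  have S3 : ∀ v, |S v| = 1 := by
    intro v
    simp only [S]
    split_ifs <;> norm_num
  have key : ∀ ρ : J × Bool → J × Bool, IsPM ρ → (∀ v, S (ρ v) = - S v) →
      ∑ v, S v * (g v - g (ρ v)) = 2 * ∑ v, S v * g v := by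
    intro ρ hρ hS
    have e1 : ∑ v, S (ρ v) * g (ρ v) = ∑ v, S v * g v :=
      Equiv.sum_comp (Equiv.mk ρ ρ hρ.1 hρ.1) (fun v => S v * g v)
    calc ∑ v, S v * (g v - g (ρ v)) = ∑ v, (S v * g v + S (ρ v) * g (ρ v)) :=
          sum_congr rfl fun v _ => by rw [hS]; ring
      _ = _ := by rw [sum_add_distrib, e1]; ring
  have k1 : cost c flip' = ∑ v, S v * (g v - g (flip' v)) := by
    refine sum_congr rfl fun v _ => ?_
    obtain ⟨j, b⟩ := v
    have h3 := hg2 j
    have h4 := S1 (j, false)
    have h5 := SS (j, false)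
    have h6 : (if s (j, false) then (1 : ℝ) else -1) = S (j, false) := rfl
    rw [h6] at h3
    cases b
    · change c (j, false) (j, true) = S (j, false) * (g (j, false) - g (j, true))
      rw [h3, ← mul_assoc, h5, one_mul]
    · change c (j, true) (j, false) = S (j, true) * (g (j, true) - g (j, false))
      change S (j, true) = - S (j, false) at h4
      rw [h4, hs (j, true)]
      have : -S (j, false) * (g (j, true) - g (j, false)) =
        S (j, false) * (g (j, false) - g (j, true)) := by ring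
      rw [this, h3, ← mul_assoc, h5, one_mul]
  rw [k1, key _ flip'_pm S1, ← key τ hτ S2]
  refine sum_le_sum fun v _ => ?_
  calc S v * (g v - g (τ v)) ≤ |S v * (g v - g (τ v))| := le_abs_self _
    _ = |g v - g (τ v)| := by rw [abs_mul, S3, one_mul]
    _ ≤ _ := hg1 _ _

end Pool.Agent.Q197.Beur
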