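import Pool.Agent.Q197.Beur.Minimal

/-!
# Coordinate functions of a tree metric with edge-disjoint segments

The points are `J × Bool`; the segment `j` joins `(j, false)` and `(j, true)`.
-/

set_option autoImplicit false

namespace Pool.Agent.Q197.Beur

open Finset

section

variable {J : Type*} [Fintype J] [DecidableEq J]

/-- The matching of the segments. -/
def flip' {J : Type*} (v : J × Bool) : J × Bool := (v.1, !v.2)

lemma flip'_pm {J : Type*} : IsPM (flip' (J := J)) := by
  refine ⟨fun v => ?_, fun v h => ?_⟩
  · simp [flip']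
  · have := congrArg Prod.snd h
    simp [flip'] at this

variable (c : J × Bool → J × Bool → ℝ)

/-- The position of the projection of `v` to the segment `i`, up to a constant. -/
noncomputable def pos {J : Type*} (c : J × Bool → J × Bool → ℝ) (i : J) (v : J × Bool) : ℝ :=
  (c v (i, true) - c v (i, false)) / 2

/-- The distance of `v` to the segment `i`. -/
noncomputable def uu {J : Type*} (c : J × Bool → J × Bool → ℝ) (i : J) (v : J × Bool) : ℝ :=
  (c v (i, false) + c v (i, true) - c (i, false) (i, true)) / 2

/-- The distance of two segments. -/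
noncomputable def del {J : Type*} (c : J × Bool → J × Bool → ℝ) (i j : J) : ℝ :=
  (c (i, false) (j, false) + c (i, true) (j, true) - c (i, false) (i, true) -
    c (j, false) (j, true)) / 2

end

section

variable {J : Type*} [Fintype J] [DecidableEq J] {c : J × Bool → J × Bool → ℝ}

/-- The hypotheses. -/
structure Good {J : Type*} [Fintype J] (c : J × Bool → J × Bool → ℝ) : Prop where
  ps : IsPseudo c
  fp : FourPoint c
  opt : ∀ τ, IsPM τ → cost c flip' ≤ cost c τ

omit [DecidableEq J] in
lemma Good.swap (h : Good c) {i j : J} (hij : i ≠ j) (b : Bool) :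
    c (i, false) (i, true) + c (j, false) (j, true) ≤
      c (i, false) (j, b) + c (i, true) (j, !b) := by
  classical
  have h1 := swapB c h.ps.symm (flip'_pm (J := J)) flip'_pm h.opt rfl rfl
    (fun v => v.1 = i) (i, false) (i, true) (j, b) (j, !b) rfl rfl rfl
    (fun hc => hij (by simpa using hc.symm)) (fun v hv => hv) (fun v hv => hv)
  refine le_trans (le_of_eq ?_) h1
  cases b
  · rfl
  · change _ = _ + c (j, true) (j, false)
    rw [h.ps.symm (j, true)]

omit [DecidableEq J] in
/-- The two large sums coincide. -/
lemma Good.eq (h : Good c) {i j : J} (hij : i ≠ j) :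
    c (i, false) (j, false) + c (i, true) (j, true) =
      c (i, false) (j, true) + c (i, true) (j, false) := by
  have h1 := h.swap hij false
  have h2 := h.swap hij true
  simp only [Bool.not_false, Bool.not_true] at h1 h2
  have h3 := h.fp (i, false) (j, false) (i, true) (j, true)
  have h4 := h.fp (i, false) (j, true) (i, true) (j, false)
  rw [h.ps.symm (j, false) (i, true)] at h3
  rw [h.ps.symm (j, true) (i, true), h.ps.symm (j, true) (j, false)] at h4
  rcases le_max_iff.1 h3 with h5 | h5 <;> rcases le_max_iff.1 h4 with h6 | h6 <;> linarith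

omit [DecidableEq J] in
lemma Good.pos_eq (h : Good c) {i j : J} (hij : i ≠ j) (b : Bool) :
    pos c i (j, b) = pos c i (j, false) := by
  have h1 := h.eq hij
  cases b
  · rfl
  · unfold pos
    rw [h.ps.symm (j, true), h.ps.symm (j, true), h.ps.symm (j, false), h.ps.symm (j, false)]
    linarith

omit [DecidableEq J] in
lemma Good.pos_self (h : Good c) (i : J) :
    pos c i (i, false) - pos c i (i, true) = c (i, false) (i, true) := by
  unfold pos
  rw [h.ps.self, h.ps.self, h.ps.symm (i, true)]
  ring

omit [DecidableEq J] in
lemma Good.uu_nonneg (h : Good c) (i : J) (v : J × Bool) : 0 ≤ uu c i v := by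
  unfold uu
  have := h.ps.tri (i, false) v (i, true)
  rw [h.ps.symm (i, false) v] at this
  linarith

omit [DecidableEq J] in
lemma Good.del_nonneg (h : Good c) {i j : J} (hij : i ≠ j) : 0 ≤ del c i j := by
  unfold del
  have := h.swap hij false
  simp only [Bool.not_false] at this
  linarith

omit [DecidableEq J] in
lemma Good.del_eq (h : Good c) {i j : J} (hij : i ≠ j) :
    del c i j = (uu c i (j, false) + uu c i (j, true) - c (j, false) (j, true)) / 2 := by
  unfold del uu
  have := h.eq hij
  rw [h.ps.symm (j, false) (i, false), h.ps.symm (j, false) (i, true),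
    h.ps.symm (j, true) (i, false), h.ps.symm (j, true) (i, true)]
  linarith

omit [DecidableEq J] in
/-- The path between two points passes the segment `j`. -/
lemma Good.path (h : Good c) (j : J) (v w : J × Bool) (hne : pos c j v ≠ pos c j w) :
    uu c j v + |pos c j v - pos c j w| + uu c j w ≤ c v w := by
  have key : ∀ v w : J × Bool, pos c j w < pos c j v →
      uu c j v + (pos c j v - pos c j w) + uu c j w ≤ c v w := by
    intro v w hlt
    have h1 := h.fp v (j, true) w (j, false)
    unfold pos at hlt
    unfold uu pos
    rw [h.ps.symm (j, true) (j, false), h.ps.symm (j, true) w] at h1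
    rcases le_max_iff.1 h1 with h2 | h2
    · linarith
    · linarith
  rcases lt_or_gt_of_ne hne with h1 | h1
  · have := key w v h1
    rw [abs_of_neg (by linarith), h.ps.symm v w]
    linarith
  · have := key v w h1
    rw [abs_of_pos (by linarith)]
    linarith

omit [DecidableEq J] in
lemma Good.path_seg (h : Good c) {i j : J} (hij : i ≠ j) (z : J × Bool)
    (hne : pos c j z ≠ pos c j (i, false)) :
    uu c j z + |pos c j z - pos c j (i, false)| + del c j i ≤ uu c i z := by
  have h1 := h.path j z (i, false) hne
  have e := h.pos_eq hij.symm true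
  have h2 := h.path j z (i, true) (by rw [e]; exact hne)
  rw [e] at h2
  rw [h.del_eq hij.symm]
  have h3 : uu c i z = (c z (i, false) + c z (i, true) - c (i, false) (i, true)) / 2 := rfl
  rw [h3]
  linarith

omit [DecidableEq J] in
lemma Good.seg_seg (h : Good c) {i j k : J} (hij : i ≠ j) (hik : i ≠ k) (hjk : j ≠ k)
    (hne : pos c k (j, false) ≠ pos c k (i, false)) :
    del c k j + |pos c k (j, false) - pos c k (i, false)| + del c k i ≤ del c i j := by
  have h1 := h.path_seg hik (j, false) hne
  have e := h.pos_eq (i := k) (j := j) hjk.symm true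
  have h2 := h.path_seg hik (j, true) (by rw [e]; exact hne)
  rw [e] at h2
  rw [h.del_eq hij, h.del_eq hjk.symm]
  linarith

lemma Good.claim2 (h : Good c) : ∀ (n : ℕ) (S : Finset J), S.card = n → ∀ i j : J, i ≠ j →
    i ∉ S → j ∉ S → ∑ k ∈ S, |pos c k (i, false) - pos c k (j, false)| ≤ del c i j := by
  intro n
  induction n with
  | zero =>
    intro S hS i j hij _ _
    rw [card_eq_zero.1 hS, sum_empty]
    exact h.del_nonneg hij
  | succ n ih =>
    intro S hS i j hij hi hj
    by_cases hz : ∀ k ∈ S, pos c k (i, false) = pos c k (j, false)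
    · rw [sum_eq_zero fun k hk => by rw [hz k hk, sub_self, abs_zero]]
      exact h.del_nonneg hij
    · push Not at hz
      obtain ⟨k, hk, hne⟩ := hz
      have hik : i ≠ k := fun e => hi (e ▸ hk)
      have hjk : j ≠ k := fun e => hj (e ▸ hk)
      have h1 := h.seg_seg hij hik hjk hne.symm
      have h2 := ih (S.erase k) (by rw [card_erase_of_mem hk, hS]; rfl) k j hjk.symm
        (notMem_erase k S) (fun e => hj (mem_of_mem_erase e))
      have h3 := ih (S.erase k) (by rw [card_erase_of_mem hk, hS]; rfl) k i hik.symm
        (notMem_erase k S) (fun e => hi (mem_of_mem_erase e))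
      rw [← sum_erase_add _ _ hk]
      have h4 : ∑ l ∈ S.erase k, |pos c l (i, false) - pos c l (j, false)| ≤
          ∑ l ∈ S.erase k, |pos c l (k, false) - pos c l (j, false)| +
          ∑ l ∈ S.erase k, |pos c l (k, false) - pos c l (i, false)| := by
        rw [← sum_add_distrib]
        refine sum_le_sum fun l _ => ?_
        have := abs_sub_le (pos c l (i, false)) (pos c l (k, false)) (pos c l (j, false))
        rw [abs_sub_comm (pos c l (i, false)) (pos c l (k, false))] at this
        linarith
      rw [abs_sub_comm (pos c k (j, false))] at h1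
      linarith

lemma Good.claim1 (h : Good c) : ∀ (n : ℕ) (S : Finset J), S.card = n → ∀ (i : J) (z : J × Bool),
    i ∉ S → ∑ k ∈ S, |pos c k z - pos c k (i, false)| ≤ uu c i z := by
  intro n
  induction n with
  | zero =>
    intro S hS i z _
    rw [card_eq_zero.1 hS, sum_empty]
    exact h.uu_nonneg i z
  | succ n ih =>
    intro S hS i z hi
    by_cases hz : ∀ k ∈ S, pos c k z = pos c k (i, false)
    · rw [sum_eq_zero fun k hk => by rw [hz k hk, sub_self, abs_zero]]
      exact h.uu_nonneg i z
    · push Not at hz
      obtain ⟨k, hk, hne⟩ := hz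
      have hik : i ≠ k := fun e => hi (e ▸ hk)
      have h1 := h.path_seg hik z hne
      have hcard : (S.erase k).card = n := by rw [card_erase_of_mem hk, hS]; rfl
      have h2 := ih (S.erase k) hcard k z (notMem_erase k S)
      have h3 := h.claim2 n (S.erase k) hcard k i hik.symm
        (notMem_erase k S) (fun e => hi (mem_of_mem_erase e))
      rw [← sum_erase_add _ _ hk]
      have h4 : ∑ l ∈ S.erase k, |pos c l z - pos c l (i, false)| ≤
          ∑ l ∈ S.erase k, |pos c l z - pos c l (k, false)| +
          ∑ l ∈ S.erase k, |pos c l (k, false) - pos c l (i, false)| := by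
        rw [← sum_add_distrib]
        exact sum_le_sum fun l _ => abs_sub_le _ _ _
      linarith

lemma Good.claim0 (h : Good c) (S : Finset J) (z w : J × Bool) :
    ∑ k ∈ S, |pos c k z - pos c k w| ≤ c z w := by
  by_cases hz : ∀ k ∈ S, pos c k z = pos c k w
  · rw [sum_eq_zero fun k hk => by rw [hz k hk, sub_self, abs_zero]]
    exact h.ps.nonneg z w
  · push Not at hz
    obtain ⟨k, hk, hne⟩ := hz
    have h1 := h.path k z w hne
    have h2 := h.claim1 _ (S.erase k) rfl k z (notMem_erase k S)
    have h3 := h.claim1 _ (S.erase k) rfl k w (notMem_erase k S)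
    rw [← sum_erase_add _ _ hk]
    have h4 : ∑ l ∈ S.erase k, |pos c l z - pos c l w| ≤
        ∑ l ∈ S.erase k, |pos c l z - pos c l (k, false)| +
        ∑ l ∈ S.erase k, |pos c l w - pos c l (k, false)| := by
      rw [← sum_add_distrib]
      refine sum_le_sum fun l _ => ?_
      have := abs_sub_le (pos c l z) (pos c l (k, false)) (pos c l w)
      rw [abs_sub_comm (pos c l (k, false)) (pos c l w)] at this
      exact this
    linarith

/-- **Finite case.** If the matching of the segments is optimal for the pseudometric `c₀`, there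
are coordinate functions. -/
theorem finite_case (c₀ : J × Bool → J × Bool → ℝ) (h0 : IsPseudo c₀)
    (hopt : ∀ τ, IsPM τ → cost c₀ flip' ≤ cost c₀ τ) :
    ∃ F : J → J × Bool → ℝ, (∀ i, F i (i, false) - F i (i, true) = c₀ (i, false) (i, true)) ∧
      (∀ i j, i ≠ j → F i (j, false) = F i (j, true)) ∧
      ∀ v w, ∑ i, |F i v - F i w| ≤ c₀ v w := by
  obtain ⟨c, hc, hmin⟩ := exists_least (c₀ := c₀) (m := cost c₀ flip')
    ⟨c₀, h0, fun v w => le_rfl, hopt⟩
  have h4 := fourPoint hc hmin
  obtain ⟨h1, h2, h3⟩ := hc
  have h5 : cost c flip' ≤ cost c₀ flip' := sum_le_sum fun v _ => h2 v _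
  have h6 : cost c flip' = cost c₀ flip' := le_antisymm h5 (h3 _ flip'_pm)
  have hg : Good c := ⟨h1, h4, fun τ hτ => h6 ▸ h3 τ hτ⟩
  have h7 : ∀ i : J, c (i, false) (i, true) = c₀ (i, false) (i, true) := by
    intro i
    have h8 := (sum_eq_sum_iff_of_le (s := univ) (f := fun v => c v (flip' v))
      (g := fun v => c₀ v (flip' v)) (fun v _ => h2 v _)).1 h6 (i, false) (mem_univ _)
    exact h8
  refine ⟨pos c, fun i => ?_, fun i j hij => ?_, fun v w => (hg.claim0 univ v w).trans (h2 v w)⟩
  · rw [hg.pos_self, h7]
  · exact (hg.pos_eq hij true).symm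

end

end Pool.Agent.Q197.Beur
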